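import Pool.Agent.Helper244.Br.Final

/-!
The weighted Brouwer inequality for Laplacian eigenvalue sums, from the cut inequality for
projections (Pool.Br) and a layer cake argument.
-/

set_option autoImplicit false

namespace Pool.Agent.Y404.WB

open Finset Matrix

variable {V : Type} [Fintype V] [DecidableEq V]

/-- The projection matrix of a set of members of an orthonormal basis. -/
noncomputable def pr (b : OrthonormalBasis V ℝ (EuclideanSpace ℝ V)) (T : Finset V) :
    Matrix V V ℝ := Matrix.of fun i j => ∑ a ∈ T, b a i * b a j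

lemma pr_symm (b : OrthonormalBasis V ℝ (EuclideanSpace ℝ V)) (T : Finset V) :
    (pr b T)ᵀ = pr b T := by
  ext i j
  simp only [pr, Matrix.transpose_apply, Matrix.of_apply]
  exact Finset.sum_congr rfl fun a _ => mul_comm _ _

lemma pr_mul (b : OrthonormalBasis V ℝ (EuclideanSpace ℝ V)) (T : Finset V) :
    pr b T * pr b T = pr b T := by
  ext i j
  rw [Matrix.mul_apply]
  simp only [pr, Matrix.of_apply]
  have : ∀ l, (∑ a ∈ T, b a i * b a l) * (∑ c ∈ T, b c l * b c j) =
      ∑ a ∈ T, ∑ c ∈ T, (b a i * b c j) * (b a l * b c l) := by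
    intro l
    rw [Finset.sum_mul_sum]
    apply Finset.sum_congr rfl; intro a _
    apply Finset.sum_congr rfl; intro c _
    ring
  rw [Finset.sum_congr rfl fun l _ => this l, Finset.sum_comm]
  apply Finset.sum_congr rfl; intro a ha
  rw [Finset.sum_comm]
  simp_rw [← Finset.mul_sum, Pool.Helper237.Brouwer.inner_sum]
  simp [ha]

lemma pr_trace (b : OrthonormalBasis V ℝ (EuclideanSpace ℝ V)) (T : Finset V) :
    ∑ i, pr b T i i = T.card := by
  simp only [pr, Matrix.of_apply]
  rw [Finset.sum_comm]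
  have : ∀ a ∈ T, ∑ i, b a i * b a i = 1 := by
    intro a _
    rw [Pool.Helper237.Brouwer.inner_sum]; simp
  rw [Finset.sum_congr rfl this]; simp

/-- `|P (e_i - e_j)|² ≤ 2`. -/
lemma t_le_two (P : Matrix V V ℝ) (hPs : Pᵀ = P) (hPi : P * P = P) (i j : V) (hij : i ≠ j) :
    P i i + P j j - 2 * P i j ≤ 2 := by
  have hsym : ∀ i j, P i j = P j i := fun i j => by
    conv_lhs => rw [← hPs]
    rfl
  have hid : ∀ i j, ∑ l, P i l * P j l = P i j := by
    intro i j
    have h := congrFun (congrFun hPi i) j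
    rw [Matrix.mul_apply] at h
    rw [← h]
    apply Finset.sum_congr rfl; intro l _
    rw [hsym j l]
  set R : Matrix V V ℝ := 1 - P with hR
  have h0 : 0 ≤ ∑ l, (R i l - R j l) ^ 2 := Finset.sum_nonneg fun _ _ => sq_nonneg _
  have h1 : ∑ l, (R i l - R j l) ^ 2 = 2 - (P i i + P j j - 2 * P i j) := by
    have e : ∀ l, (R i l - R j l) ^ 2 =
        ((1 : Matrix V V ℝ) i l - (1 : Matrix V V ℝ) j l) ^ 2
          - 2 * ((1 : Matrix V V ℝ) i l * P i l) + 2 * ((1 : Matrix V V ℝ) i l * P j l)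
          + 2 * ((1 : Matrix V V ℝ) j l * P i l) - 2 * ((1 : Matrix V V ℝ) j l * P j l)
          + (P i l * P i l + P j l * P j l - 2 * (P i l * P j l)) := by
      intro l
      simp only [hR, Matrix.sub_apply]
      ring
    have e2 : ∀ l, ((1 : Matrix V V ℝ) i l - (1 : Matrix V V ℝ) j l) ^ 2
        = (if i = l then (1:ℝ) else 0) + (if j = l then (1:ℝ) else 0) := by
      intro l
      simp only [Matrix.one_apply]
      by_cases h1 : i = l
      · by_cases h2 : j = l
        · exact absurd (h1.trans h2.symm) hij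
        · simp [h1, h2]
      · by_cases h2 : j = l
        · simp [h1, h2]
        · simp [h1, h2]
    rw [Finset.sum_congr rfl fun l _ => e l]
    simp only [Finset.sum_add_distrib, Finset.sum_sub_distrib, ← Finset.mul_sum, hid]
    rw [Finset.sum_congr rfl fun l _ => e2 l]
    simp only [Matrix.one_apply, ite_mul, one_mul, zero_mul, Finset.sum_ite_eq, Finset.mem_univ,
      if_true, Finset.sum_add_distrib]
    rw [hsym j i]
    ring
  rw [h1] at h0
  linarith

/-- The quadratic form of the weighted Laplacian. -/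
lemma lap_form (A : Matrix V V ℝ) (hA : A.IsSymm) (x : V → ℝ) :
    2 * (x ⬝ᵥ ((Matrix.diagonal (fun i => ∑ j, A i j) - A) *ᵥ x)) =
      ∑ i, ∑ j, A i j * (x i - x j) ^ 2 := by
  have hs : ∀ i j, A i j = A j i := fun i j => by
    conv_lhs => rw [← hA]
    rfl
  have h1 : x ⬝ᵥ ((Matrix.diagonal (fun i => ∑ j, A i j) - A) *ᵥ x) =
      ∑ i, ∑ j, A i j * (x i ^ 2 - x i * x j) := by
    rw [Matrix.sub_mulVec, dotProduct]
    apply Finset.sum_congr rfl; intro i _
    have : ∑ j, A i j * (x i ^ 2 - x i * x j) = x i ^ 2 * ∑ j, A i j - x i * ∑ j, A i j * x j := by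
      rw [Finset.mul_sum, Finset.mul_sum, ← Finset.sum_sub_distrib]
      apply Finset.sum_congr rfl; intro j _
      ring
    rw [this, Pi.sub_apply, Matrix.mulVec_diagonal]
    simp only [Matrix.mulVec, dotProduct]
    ring
  have h2 : ∑ i, ∑ j, A i j * (x i ^ 2 - x i * x j) = ∑ i, ∑ j, A i j * (x j ^ 2 - x i * x j) := by
    rw [Finset.sum_comm]
    apply Finset.sum_congr rfl; intro i _
    apply Finset.sum_congr rfl; intro j _
    rw [hs j i]
    ring
  rw [two_mul, h1]
  nth_rewrite 2 [h2]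
  rw [← Finset.sum_add_distrib]
  apply Finset.sum_congr rfl; intro i _
  rw [← Finset.sum_add_distrib]
  apply Finset.sum_congr rfl; intro j _
  ring

/-- The weighted form for a projection, `P` a set of the largest weights. -/
theorem proj_bound (P : Matrix V V ℝ) (hPs : Pᵀ = P) (hPi : P * P = P) (hP1 : ∀ i, ∑ j, P i j = 0)
    (k : ℕ) (hk : ∑ i, P i i ≤ k) (hk0 : 0 ≤ ∑ i, P i i)
    (E : Finset (V × V)) (hE : ∀ p ∈ E, p.1 ≠ p.2) (hE2 : ∀ p ∈ E, (p.2, p.1) ∉ E)
    (w : V × V → ℝ) (hw : ∀ p ∈ E, 0 ≤ w p)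
    (S : Finset (V × V)) (hSE : S ⊆ E) (hSc : (S.card : ℝ) = (k ^ 2 + k) / 2) (hSn : S.Nonempty)
    (hSt : ∀ p ∈ S, ∀ q ∈ E, q ∉ S → w q ≤ w p) :
    ∑ p ∈ E, w p * (P p.1 p.1 + P p.2 p.2 - 2 * P p.1 p.2 - 1) ≤ ∑ p ∈ S, w p := by
  classical
  have hsym : ∀ i j, P i j = P j i := fun i j => by
    conv_lhs => rw [← hPs]
    rfl
  set c : V × V → ℝ := fun p => P p.1 p.1 + P p.2 p.2 - 2 * P p.1 p.2 - 1 with hc
  have hc1 : ∀ p ∈ E, c p ≤ 1 := by
    intro p hp
    have := t_le_two P hPs hPi p.1 p.2 (hE p hp)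
    simp only [hc]; linarith
  -- sum of the positive c
  have hpos : ∑ p ∈ E, max (c p) 0 ≤ (k ^ 2 + k) / 2 := by
    set F := E.filter (fun p => 0 < c p) with hF
    have e1 : ∑ p ∈ E, max (c p) 0 = ∑ p ∈ F, c p := by
      rw [hF, Finset.sum_filter]
      apply Finset.sum_congr rfl; intro p _
      split_ifs with h
      · exact max_eq_left h.le
      · exact max_eq_right (not_lt.1 h)
    set R : V → V → Prop := fun i j => (i, j) ∈ F ∨ (j, i) ∈ F with hR
    have hcore := Pool.Br.core_of_cut P hPs hPi hP1 R (fun i j h => h.symm)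
      (fun S => Pool.Br.cut P hPs hPi hP1 R S)
    have hmem : ∀ p ∈ F, (p.2, p.1) ∉ F := by
      intro p hp h
      exact hE2 p (Finset.mem_of_mem_filter _ hp) (Finset.mem_of_mem_filter _ h)
    have e2 : ∑ i, ∑ j, (if R i j then (P i i + P j j - 2 * P i j - 1) else 0)
        = 2 * ∑ p ∈ F, c p := by
      have e3 : ∀ i j, (if R i j then (P i i + P j j - 2 * P i j - 1) else 0)
          = (if (i, j) ∈ F then c (i, j) else 0) + (if (j, i) ∈ F then c (j, i) else 0) := by
        intro i j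
        by_cases h1 : (i, j) ∈ F
        · have h2 : (j, i) ∉ F := hmem (i, j) h1
          simp [hR, h1, h2, hc]
        · by_cases h2 : (j, i) ∈ F
          · simp only [hR, h1, h2, or_true, if_true, if_false, hc, zero_add]
            rw [hsym i j]; ring
          · simp [hR, h1, h2]
      have e4 : ∑ i, ∑ j, (if (i, j) ∈ F then c (i, j) else 0) = ∑ p ∈ F, c p := by
        rw [← Finset.sum_product']
        rw [Finset.univ_product_univ, ← Finset.sum_filter]
        congr 1
        ext p; simp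
      have e5 : ∑ i, ∑ j, (if (j, i) ∈ F then c (j, i) else 0) = ∑ p ∈ F, c p := by
        rw [Finset.sum_comm]; exact e4
      simp only [e3, Finset.sum_add_distrib]
      rw [e4, e5]; ring
    rw [e2] at hcore
    rw [e1]
    have : (∑ i, P i i) ^ 2 ≤ (k : ℝ) ^ 2 := by
      apply pow_le_pow_left₀ hk0 hk
    linarith
  -- threshold
  obtain ⟨p0, hp0, hmin⟩ := Finset.exists_min_image S w hSn
  set τ := w p0 with hτ
  have hτ0 : 0 ≤ τ := hw p0 (hSE hp0)
  have h1 : ∑ p ∈ E, w p * c p = ∑ p ∈ E, (w p - min (w p) τ) * c p + ∑ p ∈ E, min (w p) τ * c p := by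
    rw [← Finset.sum_add_distrib]
    apply Finset.sum_congr rfl; intro p _
    ring
  have h2 : ∑ p ∈ E, min (w p) τ * c p ≤ τ * ((k ^ 2 + k) / 2) := by
    calc ∑ p ∈ E, min (w p) τ * c p ≤ ∑ p ∈ E, τ * max (c p) 0 := by
          apply Finset.sum_le_sum; intro p hp
          have h3 : 0 ≤ min (w p) τ := le_min (hw p hp) hτ0
          calc min (w p) τ * c p ≤ min (w p) τ * max (c p) 0 :=
                mul_le_mul_of_nonneg_left (le_max_left _ _) h3
            _ ≤ τ * max (c p) 0 := mul_le_mul_of_nonneg_right (min_le_right _ _) (le_max_right _ _)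
      _ = τ * ∑ p ∈ E, max (c p) 0 := by rw [Finset.mul_sum]
      _ ≤ τ * ((k ^ 2 + k) / 2) := mul_le_mul_of_nonneg_left hpos hτ0
  have h3 : ∑ p ∈ E, (w p - min (w p) τ) * c p ≤ ∑ p ∈ S, (w p - τ) := by
    rw [← Finset.sum_sdiff hSE]
    have e1 : ∑ p ∈ E \ S, (w p - min (w p) τ) * c p = 0 := by
      apply Finset.sum_eq_zero; intro p hp
      rw [Finset.mem_sdiff] at hp
      rw [min_eq_left (hSt p0 hp0 p hp.1 hp.2)]; ring
    rw [e1, zero_add]
    apply Finset.sum_le_sum; intro p hp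
    rw [min_eq_right (hmin p hp)]
    have h4 : 0 ≤ w p - τ := sub_nonneg.2 (hmin p hp)
    calc (w p - τ) * c p ≤ (w p - τ) * 1 := mul_le_mul_of_nonneg_left (hc1 p (hSE hp)) h4
      _ = w p - τ := mul_one _
  rw [Finset.sum_sub_distrib, Finset.sum_const, nsmul_eq_mul, hSc] at h3
  have h5 : ∑ p ∈ E, w p * (P p.1 p.1 + P p.2 p.2 - 2 * P p.1 p.2 - 1) = ∑ p ∈ E, w p * c p := rfl
  rw [h5, h1]
  nlinarith

end Pool.Agent.Y404.WB
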