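import Pool.Agent.Y404.GccSap
import Pool.Agent.Helper861.GccMain

set_option autoImplicit false

/-!
# Bounds of complement type for the positive semidefinite minimum rank and for `ν`
-/

open Matrix Finset

namespace Pool.Agent.Y404.GccBounds

open Pool.Agent.Y404.GccSap

theorem HasSap.mono {V : Type*} [Fintype V] [DecidableEq V] {G : SimpleGraph V} {r s : ℕ}
    (h : HasSap G r) (hrs : r ≤ s) : HasSap G s := by
  obtain ⟨A, h1, h2, h3, h4⟩ := h
  exact ⟨A, h1, h2, h3, h4.trans hrs⟩

open Classical in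
/-- Either graph has small rank or the other one has a large core. -/
theorem sap_pair {V : Type*} [Fintype V] [DecidableEq V] (G : SimpleGraph V) :
    ∃ a : ℕ, a ≤ Fintype.card V ∧ HasSap G (Fintype.card V - a) ∧ HasSap Gᶜ (2 * a + 1) := by
  rcases isEmpty_or_nonempty V with hV | hV
  · refine ⟨0, Nat.zero_le _, ?_, ?_⟩
    · refine ⟨0, Matrix.PosSemidef.zero, fun i => isEmptyElim i, fun X _ _ _ => ?_, ?_⟩
      · ext i
        exact isEmptyElim i
      · rw [Matrix.rank_zero]
        omega
    · refine ⟨0, Matrix.PosSemidef.zero, fun i => isEmptyElim i, fun X _ _ _ => ?_, ?_⟩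
      · ext i
        exact isEmptyElim i
      · rw [Matrix.rank_zero]
        omega
  let P : ℕ → Prop := fun a => ∀ S : Finset V, S.Nonempty →
    ∃ x ∈ S, (S.filter fun y => G.Adj x y).card ≤ a
  have hP : ∃ a, P a := by
    refine ⟨Fintype.card V, fun S hS => ?_⟩
    obtain ⟨x, hx⟩ := hS
    exact ⟨x, hx, Finset.card_le_univ _⟩
  have hcore : ∃ S : Finset V, S.Nonempty ∧
      ∀ x ∈ S, Nat.find hP ≤ (S.filter fun y => G.Adj x y).card := by
    rcases Nat.eq_zero_or_pos (Nat.find hP) with h0 | h0
    · refine ⟨Finset.univ, Finset.univ_nonempty, fun x _ => ?_⟩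
      rw [h0]
      exact Nat.zero_le _
    · have h1 : ¬ P (Nat.find hP - 1) := Nat.find_min hP (by omega)
      simp only [P] at h1
      push Not at h1
      obtain ⟨S, hS, h2⟩ := h1
      refine ⟨S, hS, fun x hx => ?_⟩
      have := h2 x hx
      omega
  obtain ⟨S, hS, hd⟩ := hcore
  obtain ⟨h1, h2⟩ := core_sap V G S (Nat.find hP) hS (by
    intro x hx
    convert hd x hx)
  refine ⟨Nat.find hP, h2, h1, ?_⟩
  exact degen_compl_sap V G (Nat.find hP) (by
    have := Nat.find_spec hP
    simp only [P] at this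
    convert this)

open Classical in
/-- The bound by the minimum degree. -/
theorem sap_delta {V : Type*} [Fintype V] [DecidableEq V] (G : SimpleGraph V) :
    HasSap G (Fintype.card V - G.minDegree) := by
  obtain ⟨A, h1, h2, h3, h4⟩ := Pool.Agent.TH495.NuDelta.nu_ge_delta V G
  exact ⟨A, h1, h2, h3, by omega⟩

theorem minDegree_compl {V : Type*} [Fintype V] [Nonempty V] (G : SimpleGraph V)
    [DecidableRel G.Adj] [DecidableRel Gᶜ.Adj] :
    Fintype.card V ≤ Gᶜ.minDegree + 1 + G.maxDegree := by
  classical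
  obtain ⟨v, hv⟩ := Gᶜ.exists_minimal_degree_vertex
  have h4 := G.degree_le_maxDegree v
  have h5 : Gᶜ.degree v = Fintype.card V - 1 - G.degree v := by
    rw [← SimpleGraph.degree_compl]
  rw [hv, h5]
  omega

end Pool.Agent.Y404.GccBounds
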