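import Pool.Agent.Helper861.DeltaG
import Pool.Agent.TH495.NuDelta

set_option autoImplicit false

/-!
# Positive semidefinite matrices with the Strong Arnold Property for cores and for complements of
degenerate graphs

The constructions of `Helper861.DeltaE-G` (bounds for the minimum rank) give positive semidefinite
matrices, and these have the Strong Arnold Property by the argument of `TH495.NuDelta`.
-/

open Matrix Finset

namespace Pool.Agent.Y404.GccSap

open Pool.Agent.Helper861.Delta Pool.Agent.TH495.NuDelta

variable {F : Type*} [Field F]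

/-- generic independence of all `N k` and of all `insert j (N k)` gives a faithful configuration. -/
theorem exists_conf_of_generic [Infinite F] {N : ℕ → Finset ℕ} (hN : ∀ k, N k ⊆ range k)
    (n r : ℕ)
    (H1 : ∀ k < n, ∃ t : ℕ → Fin r → F, RI (conf N t) (N k) (N k))
    (H2 : ∀ j k, j < k → k < n → j ∉ N k →
      ∃ t : ℕ → Fin r → F, RI (conf N t) (insert j (N k)) (insert j (N k))) :
    ∃ v : ℕ → Fin r → F, (∀ j k, j < k → k < n → (v j ⬝ᵥ v k = 0 ↔ j ∈ N k)) ∧
      ∀ k < n, RI v (N k) (N k) := by
  classical
  have key : ∃ t : ℕ → Fin r → F, ∀ p ∈ ((range n) ×ˢ (range n)).filter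
      (fun p => p.1 ≤ p.2 ∧ p.1 ∉ N p.2),
      (p.1 < p.2 → conf N t p.1 ⬝ᵥ conf N t p.2 ≠ 0) ∧
      RI (conf N t) (N p.2) (N p.2) := by
    apply exists_all
    · intro p _
      refine ZO.and ?_ (ZO_RI hN rfl)
      by_cases h : p.1 < p.2
      · have := ZO_dot (F := F) (r := r) hN p.1 p.2
        simpa [h] using this
      · have := ZO_true (F := F) (r := r)
        simpa [h] using this
    · rintro ⟨j, k⟩ hp
      rw [Finset.mem_filter, Finset.mem_product] at hp
      obtain ⟨⟨_, hk⟩, hjk, hjN⟩ := hp
      simp only at hk hjk hjN ⊢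
      have hk' := Finset.mem_range.mp hk
      have e2 := H1 k hk'
      have z2 := ZO_RI (F := F) (r := r) hN (S := N k) (Y := N k) rfl
      by_cases hlt : j < k
      swap
      · obtain ⟨t, ht⟩ := e2
        exact ⟨t, fun h => absurd h hlt, ht⟩
      have e1 := H2 j k hlt hk' hjN
      have z1 := ZO_RI (F := F) (r := r) hN (S := insert j (N k)) (Y := insert j (N k)) rfl
      obtain ⟨t, h1, h2⟩ := z1.exists_and z2 e1 e2
      set v := conf N t with hv
      have hD : (gram v (N k)).det ≠ 0 := (RI_gram v (N k)).mpr h2
      obtain ⟨x, hx1, hx2⟩ := exists_orth (N k) v (v j) (fun c hc => by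
        have h3 := h1 (fun i => if i = j then -1 else c i) (fun y _ => by
          rw [← sum_smul_dot, Finset.sum_insert hjN, if_pos rfl]
          have h4 : ∑ i ∈ N k, (if i = j then (-1 : F) else c i) • v i
              = ∑ i ∈ N k, c i • v i := by
            refine Finset.sum_congr rfl fun i hi => ?_
            rw [if_neg (fun e : i = j => hjN (e ▸ hi))]
          rw [h4, ← hc]
          simp) j (Finset.mem_insert_self _ _)
        simp at h3)
      have hNk : ∀ i ∈ N k, conf N (Function.update t k x) i = v i := fun i hi =>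
        conf_update_lt hN t k x i (Finset.mem_range.mp (hN k hi))
      refine ⟨Function.update t k x, fun _ => ?_, ?_⟩
      · rw [conf_update_lt hN t k x j hlt, conf_update_self hN t k x hx1, dotProduct_smul,
          smul_eq_mul]
        exact mul_ne_zero hD hx2
      · intro a ha
        apply h2
        intro y hy
        refine Eq.trans ?_ (ha y hy)
        refine Finset.sum_congr rfl fun i hi => ?_
        rw [hNk i hi, hNk y hy]
  obtain ⟨t, ht⟩ := key
  refine ⟨conf N t, fun j k hjk hk => ⟨fun h => ?_, fun h => conf_orth hN t k j h⟩, ?_⟩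
  · by_contra hjN
    refine (ht (j, k) ?_).1 hjk h
    rw [Finset.mem_filter, Finset.mem_product]
    exact ⟨⟨Finset.mem_range.mpr (by omega), Finset.mem_range.mpr hk⟩, hjk.le, hjN⟩
  · intro k hk
    refine (ht (k, k) ?_).2
    rw [Finset.mem_filter, Finset.mem_product]
    refine ⟨⟨Finset.mem_range.mpr hk, Finset.mem_range.mpr hk⟩, le_rfl, fun h => ?_⟩
    have := Finset.mem_range.mp (hN k h)
    omega

/-- Sets whose tail is generically independent are generically independent. -/
theorem block_key [Infinite F] {N : ℕ → Finset ℕ} (hN : ∀ k, N k ⊆ range k) (w : ℕ)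
    (hMA : ∀ i k, i < k →
      (tail w (N (w + i))).card ≤ ((tail w (N (w + k))) ∩ range i).card) (m r : ℕ)
    (hr : ∀ k < m, (tail w (N (w + k))).card < r) (Y : Finset ℕ) (hYM : Y ⊆ range (w + m))
    (hY : ∃ t : ℕ → Fin r → F,
      RI (conf (fun j => tail w (N (w + j))) t) (tail w Y) (tail w Y)) :
    ∃ t : ℕ → Fin (w + r) → F, RI (conf N t) Y Y := by
  classical
  let N' : ℕ → Finset ℕ := fun j => tail w (N (w + j))
  have hN' : ∀ k, N' k ⊆ range k := by
    intro k i hi
    have h1 := Finset.mem_range.mp (hN (w + k) (mem_tail.mp hi))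
    exact Finset.mem_range.mpr (by omega)
  have h1 : ∃ t : ℕ → Fin r → F, ∀ p ∈ (insert (tail w Y) ((range m).image N')),
      RI (conf N' t) p p := by
    apply exists_all
    · intro p _
      exact ZO_RI hN' rfl
    · intro p hp
      rcases Finset.mem_insert.mp hp with rfl | hp
      · exact hY
      · obtain ⟨k, hk, rfl⟩ := Finset.mem_image.mp hp
        exact GR hN' hMA k r _ _ (Adm_N hN' hMA k) (Adm_N hN' hMA k) rfl
          (hr k (Finset.mem_range.mp hk))
  obtain ⟨t', ht'⟩ := h1
  set u := conf N' t' with hu
  have horth : ∀ k < w + m, ∀ j ∈ N k, blockConf w u j ⬝ᵥ blockConf w u k = 0 := by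
    intro k hk j hj
    have hjk := Finset.mem_range.mp (hN k hj)
    by_cases hkw : k < w
    · rw [block_dot_lt u (by omega) hkw, if_neg (by omega)]
    · by_cases hjw : j < w
      · exact block_dot_mix u hjw hkw
      · rw [block_dot_ge u hjw hkw]
        apply conf_orth hN'
        simp only [N']
        rw [mem_tail]
        have e1 : w + (j - w) = j := by omega
        have e2 : w + (k - w) = k := by omega
        rwa [e1, e2]
  have hdet : ∀ k < w + m, RI (blockConf w u) (N k) (N k) := by
    intro k hk
    apply RI_block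
    by_cases hkw : k < w
    · have : tail w (N k) = ∅ := by
        rw [Finset.eq_empty_iff_forall_notMem]
        intro i hi
        have := Finset.mem_range.mp (hN k (mem_tail.mp hi))
        omega
      rw [this]
      intro a _ i hi
      exact absurd hi (Finset.notMem_empty i)
    · apply ht'
      apply Finset.mem_insert_of_mem
      refine Finset.mem_image.mpr ⟨k - w, Finset.mem_range.mpr (by omega), ?_⟩
      simp only [N']
      have e2 : w + (k - w) = k := by omega
      rw [e2]
  obtain ⟨t, ht⟩ := conf_realize hN (w + m) (blockConf w u) horth hdet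
  refine ⟨t, ?_⟩
  have hYeq : ∀ i ∈ Y, blockConf w u i = conf N t i := fun i hi =>
    (ht i (Finset.mem_range.mp (hYM hi))).symm
  exact RI_congr hYeq hYeq (RI_block u Y (ht' _ (Finset.mem_insert_self _ _)))

/-- The construction with a free initial segment, with the independence of the sets `N k`. -/
theorem exists_conf_block_indep [Infinite F] {N : ℕ → Finset ℕ} (hN : ∀ k, N k ⊆ range k) (w : ℕ)
    (hMA : ∀ i k, i < k →
      (tail w (N (w + i))).card ≤ ((tail w (N (w + k))) ∩ range i).card) (m r : ℕ)
    (hr : ∀ k < m, (tail w (N (w + k))).card < r) :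
    ∃ v : ℕ → Fin (w + r) → F,
      (∀ j k, j < k → k < w + m → (v j ⬝ᵥ v k = 0 ↔ j ∈ N k)) ∧
      ∀ k < w + m, RI v (N k) (N k) := by
  classical
  let N' : ℕ → Finset ℕ := fun j => tail w (N (w + j))
  have hN' : ∀ k, N' k ⊆ range k := by
    intro k i hi
    have h1 := Finset.mem_range.mp (hN (w + k) (mem_tail.mp hi))
    exact Finset.mem_range.mpr (by omega)
  have htailN : ∀ k < w + m, ∃ t : ℕ → Fin r → F, RI (conf N' t) (tail w (N k)) (tail w (N k)) := by
    intro k hk
    by_cases hkw : k < w
    · have : tail w (N k) = ∅ := by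
        rw [Finset.eq_empty_iff_forall_notMem]
        intro i hi
        have := Finset.mem_range.mp (hN k (mem_tail.mp hi))
        omega
      rw [this]
      refine ⟨fun _ _ => 0, ?_⟩
      intro a _ i hi
      exact absurd hi (Finset.notMem_empty i)
    · have e2 : w + (k - w) = k := by omega
      have h1 : tail w (N k) = N' (k - w) := by simp only [N']; rw [e2]
      rw [h1]
      exact GR hN' hMA (k - w) r _ _ (Adm_N hN' hMA _) (Adm_N hN' hMA _) rfl
        (hr (k - w) (by omega))
  apply exists_conf_of_generic hN
  · intro k hk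
    refine block_key hN w hMA m r hr (N k) ((hN k).trans ?_) (htailN k hk)
    intro i hi
    have := Finset.mem_range.mp hi
    exact Finset.mem_range.mpr (by omega)
  · intro j k hjk hk hjN
    refine block_key hN w hMA m r hr (insert j (N k)) ?_ ?_
    · intro i hi
      rcases Finset.mem_insert.mp hi with rfl | hi
      · exact Finset.mem_range.mpr (by omega)
      · have := Finset.mem_range.mp (hN k hi)
        exact Finset.mem_range.mpr (by omega)
    · by_cases hjw : j < w
      · have : tail w (insert j (N k)) = tail w (N k) := by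
          ext i
          rw [mem_tail, mem_tail, Finset.mem_insert]
          constructor
          · rintro (h | h)
            · omega
            · exact h
          · exact Or.inr
        rw [this]
        exact htailN k hk
      · have e2 : w + (k - w) = k := by omega
        have h1 : tail w (insert j (N k)) = insert (j - w) (N' (k - w)) := by
          ext i
          simp only [N']
          rw [mem_tail, e2, Finset.mem_insert, Finset.mem_insert, mem_tail]
          constructor
          · rintro (h | h)
            · left; omega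
            · exact Or.inr h
          · rintro (h | h)
            · left; omega
            · exact Or.inr h
        have hnot : j - w ∉ N' (k - w) := by
          simp only [N']
          rw [mem_tail, e2]
          have e1 : w + (j - w) = j := by omega
          rwa [e1]
        rw [h1]
        have hAdm : Adm N' (k - w) (insert (j - w) (N' (k - w))) :=
          (Adm_N hN' hMA (k - w)).superset (Finset.subset_insert _ _)
            (Finset.insert_subset (Finset.mem_range.mpr (by omega)) (hN' _))
        have hcard : (insert (j - w) (N' (k - w))).card = (N' (k - w)).card + 1 :=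
          Finset.card_insert_of_notMem hnot
        have hkr : (N' (k - w)).card < r := hr (k - w) (by omega)
        rcases Nat.lt_or_ge (insert (j - w) (N' (k - w))).card r with h | h
        · exact GR hN' hMA (k - w) r _ _ hAdm hAdm rfl h
        · exact GR' hN' hMA r (k - w) _ hAdm (by omega)

/-- The sparse construction, with the independence of the sets `N k`. -/
theorem exists_conf_sparse_indep {N : ℕ → Finset ℕ} (hN : ∀ k, N k ⊆ range k) (a r n : ℕ)
    (ha : ∀ k, (N k).card ≤ a) (hr : 2 * a < r) :
    ∃ v : ℕ → Fin r → ℝ, (∀ j k, j < k → k < n → (v j ⬝ᵥ v k = 0 ↔ j ∈ N k)) ∧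
      ∀ k < n, RI v (N k) (N k) := by
  classical
  apply exists_conf_of_generic hN
  · intro k _
    have := ha k
    exact sparse_RI hN a r ha hr k (N k) (hN k) (by omega)
  · intro j k hjk _ hjN
    have hcard : (insert j (N k)).card = (N k).card + 1 := Finset.card_insert_of_notMem hjN
    have := ha k
    exact sparse_RI hN a r ha hr k (insert j (N k))
      (Finset.insert_subset (Finset.mem_range.mpr hjk) (hN k)) (by omega)

/-- A positive semidefinite matrix with pattern `G`, rank at most `r`, and the Strong Arnold
Property. -/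
def HasSap {V : Type*} [Fintype V] [DecidableEq V] (G : SimpleGraph V) (r : ℕ) : Prop :=
  ∃ A : Matrix V V ℝ, A.PosSemidef ∧
    (∀ i j : V, i ≠ j → (A i j ≠ 0 ↔ G.Adj i j)) ∧
    (∀ X : Matrix V V ℝ, X.IsSymm → (∀ i j : V, (i = j ∨ G.Adj i j) → X i j = 0) →
      A * X = 0 → X = 0) ∧
    A.rank ≤ r

/-- From an ordering and an orthogonal representation along it to a matrix with the SAP. -/
theorem hasSap_of_conf {V : Type*} [Fintype V] [DecidableEq V] (G : SimpleGraph V) {n r : ℕ}
    (f : ℕ → V) (hsurj : ∀ x : V, ∃ k, k < n ∧ f k = x)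
    {N : ℕ → Finset ℕ} (v : ℕ → Fin r → ℝ)
    (hv : ∀ j k, j < k → k < n → (v j ⬝ᵥ v k = 0 ↔ j ∈ N k))
    (hNadj : ∀ j k, j < k → k < n → (j ∈ N k ↔ ¬ G.Adj (f k) (f j)))
    (hI : ∀ k < n, RI v (N k) (N k)) : HasSap G r := by
  choose g hg1 hg2 using hsurj
  have hginj : Function.Injective g := fun x y h => by rw [← hg2 x, ← hg2 y, h]
  let W : Matrix V (Fin r) ℝ := Matrix.of fun x => v (g x)
  have hA : ∀ x y, (W * Wᵀ) x y = v (g x) ⬝ᵥ v (g y) := by
    intro x y
    simp only [Matrix.mul_apply, Matrix.transpose_apply, W, Matrix.of_apply, dotProduct]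
  have hlt : ∀ x y, g x < g y → ((W * Wᵀ) x y ≠ 0 ↔ G.Adj x y) := by
    intro x y hxy
    rw [hA, Ne, hv _ _ hxy (hg1 y), hNadj _ _ hxy (hg1 y), hg2, hg2, not_not]
    exact G.adj_comm y x
  refine ⟨W * Wᵀ, ?_, ?_, ?_, ?_⟩
  · have := Matrix.posSemidef_self_mul_conjTranspose W
    rwa [Matrix.conjTranspose_eq_transpose_of_trivial] at this
  · intro x y hxy
    have hne : g x ≠ g y := fun h => hxy (by rw [← hg2 x, ← hg2 y, h])
    rcases lt_or_gt_of_ne hne with h | h
    · exact hlt x y h
    · rw [hA, dotProduct_comm, ← hA, hlt y x h]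
      exact G.adj_comm y x
  · refine sap_of_seq G r n N v g hg1 hginj ?_ hI
    intro x y hxy hAd
    rw [hNadj _ _ hxy (hg1 y), hg2, hg2]
    exact fun h => hAd h.symm
  · exact (Matrix.rank_mul_le_left W Wᵀ).trans (by simpa using Matrix.rank_le_card_width W)

open Classical in
/-- If `G[S]` has minimum degree `d` then `ν(G) ≥ d`. -/
theorem core_sap (V : Type*) [Fintype V] [DecidableEq V]
    (G : SimpleGraph V) (S : Finset V) (d : ℕ) (hS : S.Nonempty)
    (hd : ∀ x ∈ S, d ≤ (S.filter fun y => G.Adj x y).card) :
    HasSap G (Fintype.card V - d) ∧ d ≤ Fintype.card V := by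
  obtain ⟨x0, hx0⟩ := hS
  haveI : Nonempty S := ⟨⟨x0, hx0⟩⟩
  have hcS : Fintype.card S = S.card := Fintype.card_coe S
  set s := S.card with hs
  obtain ⟨g, hginj, hg⟩ := exists_greedy (V := S) (fun u w : S => ¬ G.Adj u w) s hcS.ge
  have hgimg : (range s).image g = univ := by
    apply Finset.eq_univ_of_card
    rw [Finset.card_image_of_injOn hginj, Finset.card_range, hcS]
  set w := Sᶜ.card with hw
  have hsw : w + s = Fintype.card V := by
    rw [hw, hs, Finset.card_compl]
    have := Finset.card_le_univ S
    omega
  let e : Fin w ≃ (Sᶜ : Finset V) := (Finset.equivFin Sᶜ).symm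
  let f : ℕ → V := fun k => if h : k < w then (e ⟨k, h⟩ : V) else (g (k - w) : V)
  have hflt : ∀ k (h : k < w), f k = (e ⟨k, h⟩ : V) := fun k h => by simp only [f]; rw [dif_pos h]
  have hfge : ∀ k, f (w + k) = (g k : V) := fun k => by
    simp only [f]
    rw [dif_neg (by omega)]
    congr 2
    omega
  have hsurj : ∀ x : V, ∃ k, k < w + s ∧ f k = x := by
    intro x
    by_cases hx : x ∈ S
    · have : (⟨x, hx⟩ : S) ∈ (range s).image g := by rw [hgimg]; exact Finset.mem_univ _
      obtain ⟨k, hk, hkx⟩ := Finset.mem_image.mp this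
      refine ⟨w + k, by have := Finset.mem_range.mp hk; omega, ?_⟩
      rw [hfge, hkx]
    · have hx' : x ∈ Sᶜ := Finset.mem_compl.mpr hx
      refine ⟨(e.symm ⟨x, hx'⟩ : Fin w), by omega, ?_⟩
      rw [hflt _ (e.symm ⟨x, hx'⟩).2]
      simp
  let N : ℕ → Finset ℕ := fun k =>
    if k < w + s then (range k).filter fun l => ¬ G.Adj (f k) (f l) else range k
  have hNlt : ∀ k < w + s, N k = (range k).filter fun l => ¬ G.Adj (f k) (f l) := fun k hk => by
    simp only [N]
    rw [if_pos hk]
  have hNge : ∀ k, ¬ k < w + s → N k = range k := fun k hk => by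
    simp only [N]
    rw [if_neg hk]
  have hN : ∀ k, N k ⊆ range k := by
    intro k
    by_cases hk : k < w + s
    · rw [hNlt k hk]
      exact Finset.filter_subset _ _
    · rw [hNge k hk]
  have htlt : ∀ k < s, tail w (N (w + k)) = (range k).filter fun l => ¬ G.Adj (g k) (g l) := by
    intro k hk
    ext l
    rw [mem_tail, hNlt _ (by omega), Finset.mem_filter, Finset.mem_filter, hfge, hfge,
      Finset.mem_range, Finset.mem_range]
    constructor
    · rintro ⟨h1, h2⟩
      exact ⟨by omega, h2⟩
    · rintro ⟨h1, h2⟩
      exact ⟨by omega, h2⟩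
  have htge : ∀ k, ¬ k < s → tail w (N (w + k)) = range k := by
    intro k hk
    ext l
    rw [mem_tail, hNge _ (by omega), Finset.mem_range, Finset.mem_range]
    omega
  have htsub : ∀ k, tail w (N (w + k)) ⊆ range k := by
    intro k l hl
    have := Finset.mem_range.mp (hN _ (mem_tail.mp hl))
    exact Finset.mem_range.mpr (by omega)
  have hMA : ∀ i k, i < k →
      (tail w (N (w + i))).card ≤ ((tail w (N (w + k))) ∩ range i).card := by
    intro i k hik
    by_cases hk : k < s
    · have h1 : (tail w (N (w + k))) ∩ range i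
          = (range i).filter fun l => ¬ G.Adj (g k) (g l) := by
        rw [htlt k hk]
        ext l
        simp only [Finset.mem_inter, Finset.mem_filter, Finset.mem_range]
        constructor
        · rintro ⟨⟨_, h2⟩, h3⟩
          exact ⟨h3, h2⟩
        · rintro ⟨h2, h3⟩
          exact ⟨⟨by omega, h3⟩, h2⟩
      rw [h1, htlt i (by omega)]
      refine hg i (by omega) (g k) ?_
      intro hmem
      obtain ⟨l, hl, hlk⟩ := Finset.mem_image.mp hmem
      have hl' := Finset.mem_range.mp hl
      have : l = k := hginj (by simp; omega) (by simpa using hk) hlk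
      omega
    · rw [htge k hk]
      have h1 : range k ∩ range i = range i := by
        ext l
        simp only [Finset.mem_inter, Finset.mem_range]
        omega
      rw [h1]
      exact Finset.card_le_card (htsub i)
  have hds : d < s := by
    have h1 : (S.filter fun y => G.Adj x0 y) ⊆ S.erase x0 := by
      intro y hy
      rw [Finset.mem_filter] at hy
      exact Finset.mem_erase.mpr ⟨fun h => G.loopless.irrefl _ (h ▸ hy.2), hy.1⟩
    have h2 := Finset.card_le_card h1
    rw [Finset.card_erase_of_mem hx0] at h2
    have h3 := hd x0 hx0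
    have h4 : 0 < S.card := Finset.card_pos.mpr ⟨x0, hx0⟩
    omega
  obtain ⟨r, hr⟩ : ∃ r, r + d = s := ⟨s - d, by omega⟩
  have hcard : ∀ k < s, (tail w (N (w + k))).card < r := by
    intro k hk
    rw [htlt k hk]
    set T := (range k).filter fun l => ¬ G.Adj (g k) (g l) with hT
    have h1 : (T.image fun l => (g l : V)) ⊆
        S \ (insert (g k : V) (S.filter fun y => G.Adj (g k) y)) := by
      intro x hx
      obtain ⟨l, hl, rfl⟩ := Finset.mem_image.mp hx
      rw [hT, Finset.mem_filter, Finset.mem_range] at hl
      rw [Finset.mem_sdiff, Finset.mem_insert, not_or]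
      refine ⟨(g l).2, fun h => ?_, fun h => hl.2 (Finset.mem_filter.mp h).2⟩
      have : l = k := hginj (by simp; omega) (by simpa using hk) (Subtype.ext h)
      omega
    have h2 : (T.image fun l => (g l : V)).card = T.card := by
      apply Finset.card_image_of_injOn
      intro a ha b hb hab
      have ha' := Finset.mem_range.mp (Finset.mem_filter.mp (Finset.mem_coe.mp ha)).1
      have hb' := Finset.mem_range.mp (Finset.mem_filter.mp (Finset.mem_coe.mp hb)).1
      exact hginj (by simp; omega) (by simp; omega) (Subtype.ext hab)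
    have h3 := Finset.card_le_card h1
    have h4 : insert (g k : V) (S.filter fun y => G.Adj (g k) y) ⊆ S :=
      Finset.insert_subset (g k).2 (Finset.filter_subset _ _)
    have h5 : (insert (g k : V) (S.filter fun y => G.Adj (g k) y)).card
        = (S.filter fun y => G.Adj (g k) y).card + 1 := by
      apply Finset.card_insert_of_notMem
      intro h
      exact G.loopless.irrefl _ (Finset.mem_filter.mp h).2
    rw [h2, Finset.card_sdiff_of_subset h4, h5] at h3
    have h6 := hd _ (g k).2
    have h7 := Finset.card_le_card h4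
    rw [h5] at h7
    omega
  obtain ⟨v, hv, hI⟩ := exists_conf_block_indep (F := ℝ) hN w hMA s r hcard
  refine ⟨?_, by omega⟩
  have hwr : w + r = Fintype.card V - d := by omega
  rw [← hwr]
  refine hasSap_of_conf G (n := w + s) f hsurj v hv ?_ hI
  intro j k hjk hk
  rw [hNlt k hk, Finset.mem_filter, Finset.mem_range]
  constructor
  · exact fun h => h.2
  · exact fun h => ⟨hjk, h⟩

open Classical in
/-- If every nonempty `G[S]` has a vertex of degree at most `a`, then the complement of `G` has a
positive semidefinite matrix of rank at most `2a+1` with the Strong Arnold Property. -/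
theorem degen_compl_sap (V : Type*) [Fintype V] [DecidableEq V] (G : SimpleGraph V) (a : ℕ)
    (ha : ∀ S : Finset V, S.Nonempty → ∃ x ∈ S, (S.filter fun y => G.Adj x y).card ≤ a) :
    HasSap Gᶜ (2 * a + 1) := by
  rcases isEmpty_or_nonempty V with hV | hV
  · refine ⟨0, Matrix.PosSemidef.zero, fun i => isEmptyElim i, fun X _ _ _ => ?_, ?_⟩
    · ext i
      exact isEmptyElim i
    · rw [Matrix.rank_zero]
      omega
  obtain ⟨f, hinj, himg, hf⟩ := exists_degen G a ha (Fintype.card V) univ rfl
  set n := Fintype.card V with hn
  let N : ℕ → Finset ℕ := fun k =>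
    if k < n then (range k).filter fun l => G.Adj (f k) (f l) else ∅
  have hNlt : ∀ k < n, N k = (range k).filter fun l => G.Adj (f k) (f l) := fun k hk => by
    simp only [N]
    rw [if_pos hk]
  have hNge : ∀ k, ¬ k < n → N k = ∅ := fun k hk => by
    simp only [N]
    rw [if_neg hk]
  have hN : ∀ k, N k ⊆ range k := by
    intro k
    by_cases hk : k < n
    · rw [hNlt k hk]
      exact Finset.filter_subset _ _
    · rw [hNge k hk]
      exact Finset.empty_subset _
  have hNa : ∀ k, (N k).card ≤ a := by
    intro k
    by_cases hk : k < n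
    · rw [hNlt k hk]
      exact hf k hk
    · rw [hNge k hk]
      simp
  obtain ⟨v, hv, hI⟩ := exists_conf_sparse_indep hN a (2 * a + 1) n hNa (by omega)
  refine hasSap_of_conf Gᶜ (n := n) f ?_ v hv ?_ hI
  · intro x
    have : x ∈ (range n).image f := by rw [himg]; exact Finset.mem_univ x
    obtain ⟨k, hk, hkx⟩ := Finset.mem_image.mp this
    exact ⟨k, Finset.mem_range.mp hk, hkx⟩
  · intro j k hjk hk
    rw [hNlt k hk, Finset.mem_filter, Finset.mem_range, SimpleGraph.compl_adj]
    have hne : f k ≠ f j := by
      intro h
      have := hinj (by simpa using hk) (by simp; omega) h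
      omega
    tauto

end Pool.Agent.Y404.GccSap
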